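import Pool.Agent.Helper32_ND.Stmts

/-!
# Module FUN: functionals on the polynomial ring
-/

set_option autoImplicit false

namespace Pool.Agent.ND.H20

open Finset MvPolynomial

theorem fun_stmt : FunStmt := by
  intro ι _ _ n L B hB K _ _ φ hφ
  let emb : (Fin n →₀ ℕ) → ι → ℕ := fun a => ∑ p, Pi.single (B p) (a p)
  let Ξ : MvPolynomial (Fin n) ℂ →ₗ[ℂ] K :=
    (MvPolynomial.basisMonomials (Fin n) ℂ).constr ℂ (fun a => φ (emb a))
  have hΞ : ∀ a, Ξ (monomial a 1) = φ (emb a) := by
    intro a
    have h := (MvPolynomial.basisMonomials (Fin n) ℂ).constr_basis ℂ (fun a => φ (emb a)) a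
    rwa [MvPolynomial.coe_basisMonomials] at h
  have emb_add : ∀ a p, emb (a + Finsupp.single p 1) = emb a + Pi.single (B p) 1 := by
    intro a p
    show ∑ q, (Pi.single (B q) ((a + Finsupp.single p 1 : Fin n →₀ ℕ) q) : ι → ℕ) =
      ∑ q, (Pi.single (B q) (a q) : ι → ℕ) + Pi.single (B p) 1
    have h1 : ∀ q, (Pi.single (B q) ((a + Finsupp.single p 1 : Fin n →₀ ℕ) q) : ι → ℕ) =
        Pi.single (B q) (a q) + Pi.single (B q) ((Finsupp.single p 1 : Fin n →₀ ℕ) q) := by
      intro q
      rw [Finsupp.add_apply, Pi.single_add]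
    rw [sum_congr rfl (fun q _ => h1 q), sum_add_distrib]
    congr 1
    rw [sum_eq_single p]
    · rw [Finsupp.single_eq_same]
    · intro q _ hq
      rw [Finsupp.single_eq_of_ne hq, Pi.single_zero]
    · intro h
      exact absurd (mem_univ p) h
  have key : ∀ (N : ℕ) (κ : ι → ℕ), ∑ i, κ i = N → ∀ a : Fin n →₀ ℕ,
      Ξ (monomial a 1 * ∏ i, lin (L i) ^ κ i) = φ (κ + emb a) := by
    intro N
    induction N with
    | zero =>
      intro κ hκ a
      have h0 : κ = 0 := by
        funext i
        exact (sum_eq_zero_iff.1 hκ) i (mem_univ i)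
      rw [h0]
      simp only [Pi.zero_apply, pow_zero, prod_const_one, mul_one, zero_add]
      exact hΞ a
    | succ N ih =>
      intro κ hκ a
      obtain ⟨j, hj⟩ : ∃ j, κ j ≠ 0 := by
        by_contra hcon
        push Not at hcon
        rw [sum_eq_zero (fun i _ => hcon i)] at hκ
        omega
      set κ' : ι → ℕ := κ - Pi.single j 1 with hκ'
      have h1 : κ = κ' + Pi.single j 1 := by
        funext i
        rw [hκ', Pi.add_apply, Pi.sub_apply]
        by_cases hij : i = j
        · subst hij
          rw [Pi.single_eq_same]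
          omega
        · rw [Pi.single_eq_of_ne hij]
          omega
      have h2 : ∑ i, κ' i = N := by
        rw [h1] at hκ
        simp only [Pi.add_apply, sum_add_distrib] at hκ
        rw [Finset.sum_pi_single' j 1 univ] at hκ
        simp only [mem_univ, if_true] at hκ
        omega
      have h3 : ∏ i, lin (L i) ^ κ i = lin (L j) * ∏ i, lin (L i) ^ κ' i := by
        rw [h1]
        simp only [Pi.add_apply, pow_add, prod_mul_distrib]
        rw [mul_comm]
        congr 1
        rw [prod_eq_single j]
        · rw [Pi.single_eq_same, pow_one]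
        · intro i _ hi
          rw [Pi.single_eq_of_ne hi, pow_zero]
        · intro h
          exact absurd (mem_univ j) h
      have h4 : monomial a (1 : ℂ) * (lin (L j) * ∏ i, lin (L i) ^ κ' i) =
          ∑ p, L j p • (monomial (a + Finsupp.single p 1) (1 : ℂ) * ∏ i, lin (L i) ^ κ' i) := by
        unfold lin
        rw [sum_mul, mul_sum]
        apply sum_congr rfl
        intro p _
        rw [MvPolynomial.smul_eq_C_mul, MvPolynomial.monomial_add_single, pow_one]
        ring
      rw [h3, h4, map_sum]
      have h5 : ∀ p, Ξ (L j p • (monomial (a + Finsupp.single p 1) (1 : ℂ) *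
          ∏ i, lin (L i) ^ κ' i)) =
          algebraMap ℂ K (L j p) * φ (κ' + emb a + Pi.single (B p) 1) := by
        intro p
        rw [map_smul, ih κ' h2, emb_add, Algebra.smul_def, add_assoc]
      rw [sum_congr rfl (fun p _ => h5 p), ← hφ, h1]
      congr 1
      rw [add_right_comm]
  refine ⟨Ξ, fun κ => ?_⟩
  have h := key _ κ rfl 0
  have h0 : emb 0 = 0 := by
    show ∑ q, (Pi.single (B q) ((0 : Fin n →₀ ℕ) q) : ι → ℕ) = 0
    simp
  rw [h0, add_zero] at h
  rw [← h]
  congr 1
  rw [show (monomial (0 : Fin n →₀ ℕ) (1 : ℂ)) = 1 from rfl, one_mul]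

end Pool.Agent.ND.H20
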