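import Pool.Agent.Helper32_ND.Stmts

/-!
# Module POS: a point with sum zero at which the polynomial does not vanish
-/

set_option autoImplicit false

namespace Pool.Agent.ND.H20

open Finset

theorem mem_clS {ι : Type} [Fintype ι] {n : ℕ} (L : ι → Fin n → ℂ) (S : Finset (Fin n)) (i : ι) :
    i ∈ clS L S ↔ ∀ p, L i p ≠ 0 → p ∈ S := by
  unfold clS
  simp

theorem gpol_pos {n : ℕ} (w : Finset (Fin n) → ℤ)
    (hw : ∀ T : Finset (Fin n), T.Nonempty → T ≠ univ → 0 < w T) :
    ∀ (c : ℕ) (S : Finset (Fin n)), c ≤ S.card → 0 < gpol w c S := by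
  intro c
  induction c with
  | zero =>
    intro S _
    exact one_pos
  | succ c ih =>
    intro S hS
    have hne : S.Nonempty := by
      rw [← card_pos]
      omega
    unfold gpol
    apply sum_pos _ hne
    intro p hp
    apply mul_pos
    · apply prod_pos
      intro T hT
      rw [mem_filter, mem_powerset] at hT
      apply hw T ⟨p, hT.2.2⟩
      intro h
      apply hT.2.1
      rw [h]
      apply Eq.symm
      rw [← univ_subset_iff, ← h]
      exact hT.1
    · apply ih
      rw [card_erase_of_mem hp]
      omega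

theorem gpol_cast {n : ℕ} (w : Finset (Fin n) → ℤ) : ∀ (c : ℕ) (S : Finset (Fin n)),
    gpol (fun T => ((w T : ℤ) : ℂ)) c S = ((gpol w c S : ℤ) : ℂ) := by
  intro c
  induction c with
  | zero =>
    intro S
    simp [gpol]
  | succ c ih =>
    intro S
    unfold gpol
    push_cast
    apply sum_congr rfl
    intro p _
    rw [ih]

/-- The weights. -/
noncomputable def rhoZ {ι : Type} [Fintype ι] [DecidableEq ι] {n : ℕ} (L : ι → Fin n → ℂ)
    (B : Fin n → ι) (i : ι) : ℤ := by
  classical
  exact ∑ j : ι, ∑ p : Fin n, if L j p ≠ 0 then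
    ((if i = B p then 1 else 0) - (if i = j then 1 else 0)) else 0

theorem sum_rhoZ {ι : Type} [Fintype ι] [DecidableEq ι] {n : ℕ} (L : ι → Fin n → ℂ)
    (B : Fin n → ι) (s : Finset ι) : ∑ i ∈ s, rhoZ L B i =
      ∑ j : ι, ∑ p : Fin n, if L j p ≠ 0 then
        ((if B p ∈ s then (1 : ℤ) else 0) - (if j ∈ s then 1 else 0)) else 0 := by
  classical
  unfold rhoZ
  rw [sum_comm]
  apply sum_congr rfl
  intro j _
  rw [sum_comm]
  apply sum_congr rfl
  intro p _
  by_cases h : L j p ≠ 0
  · simp only [if_pos h]
    rw [sum_sub_distrib]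
    simp
  · simp only [if_neg h, sum_const_zero]

theorem pos : PosStmt := by
  classical
  intro ι _ _ n L B hB hn hL hc
  refine ⟨fun i => ((rhoZ L B i : ℤ) : ℂ), ?_, ?_⟩
  · rw [← Int.cast_sum, sum_rhoZ]
    simp
  · have h1 : (fun S : Finset (Fin n) => ∑ i ∈ clS L S, ((rhoZ L B i : ℤ) : ℂ)) =
        fun S => ((∑ i ∈ clS L S, rhoZ L B i : ℤ) : ℂ) := by
      funext S
      rw [Int.cast_sum]
    rw [h1, gpol_cast (fun S => ∑ i ∈ clS L S, rhoZ L B i)]
    have h2 : 0 < gpol (fun S => ∑ i ∈ clS L S, rhoZ L B i) n univ := by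
      apply gpol_pos _ _ n univ
      · simp
      · intro S hS hS'
        rw [sum_rhoZ]
        have hBS : ∀ p, B p ∈ clS L S ↔ p ∈ S := by
          intro p
          rw [mem_clS]
          constructor
          · intro h
            apply h p
            rw [hB, Pi.single_eq_same]
            exact one_ne_zero
          · intro h q hq
            rw [hB] at hq
            by_cases hpq : q = p
            · rw [hpq]
              exact h
            · rw [Pi.single_eq_of_ne hpq] at hq
              exact absurd rfl hq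
        have hnn : ∀ j p, 0 ≤ if L j p ≠ 0 then
            ((if B p ∈ clS L S then (1 : ℤ) else 0) - (if j ∈ clS L S then 1 else 0)) else 0 := by
          intro j p
          by_cases h : L j p ≠ 0
          · rw [if_pos h]
            by_cases h3 : j ∈ clS L S
            · have h4 : p ∈ S := (mem_clS L S j).1 h3 p h
              rw [if_pos h3, if_pos ((hBS p).2 h4)]
              norm_num
            · rw [if_neg h3]
              split_ifs <;> norm_num
          · rw [if_neg h]
        obtain ⟨j, ⟨p, hp, hjp⟩, p', hp', hjp'⟩ := hc S hS hS'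
        apply sum_pos' (fun j _ => sum_nonneg fun p _ => hnn j p)
        refine ⟨j, mem_univ _, ?_⟩
        apply sum_pos' (fun p _ => hnn j p)
        refine ⟨p, mem_univ _, ?_⟩
        have h3 : j ∉ clS L S := fun h => hp' ((mem_clS L S j).1 h p' hjp')
        rw [if_pos hjp, if_neg h3, if_pos ((hBS p).2 hp)]
        norm_num
    exact_mod_cast h2.ne'

end Pool.Agent.ND.H20
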